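import Mathlib

/-!
# The space of smooth cubic fourfolds

The data and their known properties.
-/

set_option autoImplicit false

namespace Pool.Agent.L0h15.RC

/-- a lattice with a distinguished element -/
structure HLat where
  /-- the elements -/
  carrier : Type
  [grp : AddCommGroup carrier]
  /-- the form -/
  form : carrier → carrier → ℤ
  /-- the distinguished element -/
  h : carrier

attribute [instance] HLat.grp

instance : CoeSort HLat Type := ⟨HLat.carrier⟩

/-- the element `w` is a combination of `h` and `v` -/
def Comb {L : HLat} (v w : L) : Prop := ∃ a b : ℤ, w = a • L.h + b • v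

/-- `h` and `v` generate a saturated subgroup -/
def Saturated {L : HLat} (v : L) : Prop := ∀ (n : ℤ) (w : L), n ≠ 0 → Comb v (n • w) → Comb v w

/-- the discriminant of the sublattice generated by `h` and `v` -/
def disc {L : HLat} (v : L) : ℤ := L.form L.h L.h * L.form v v - L.form L.h v ^ 2

/-- the lattice has a saturated sublattice generated by `h` and another element, with discriminant `d` -/
def Labelled (L : HLat) (d : ℕ) : Prop := ∃ v : L, Saturated v ∧ disc v = (d : ℤ)

/-- Hassett's condition on the discriminant -/
def Admissible (d : ℕ) : Prop :=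
  6 < d ∧ (d % 6 = 0 ∨ d % 6 = 2) ∧ d % 4 ≠ 0 ∧ d % 9 ≠ 0 ∧
    ∀ p : ℕ, Nat.Prime p → p ∣ d → p % 2 = 1 → p % 3 ≠ 2

/-- Hassett's numerical criterion for an associated K3 surface -/
def HasK3 (L : HLat) : Prop := ∃ d, Admissible d ∧ Labelled L d

/-- the rank -/
noncomputable def rk (L : HLat) : ℕ := Module.finrank ℤ L

/-- the map `f` is a primitive embedding which respects the forms and the distinguished elements -/
structure IsPrimitive {L M : HLat} (f : L → M) : Prop where
  add : ∀ x y, f (x + y) = f x + f y
  inj : ∀ x y, f x = f y → x = y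
  form : ∀ x y, M.form (f x) (f y) = L.form x y
  h : f L.h = M.h
  /-- the image is saturated -/
  sat : ∀ (n : ℤ) (y : M), n ≠ 0 → (∃ x, f x = n • y) → ∃ x, f x = y

/-- `L` has a primitive embedding in `M` -/
def Embeds (L M : HLat) : Prop := ∃ f : L → M, IsPrimitive f

/-- the data -/
structure Cubics where
  /-- the smooth cubic fourfolds over the complex numbers (the points of an open set in the projective
  space of cubic forms) -/
  Pt : Type
  /-- the Zariski topology -/
  [top : TopologicalSpace Pt]
  /-- the automorphisms of the field of complex numbers -/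
  Aut : Type
  /-- the action of the automorphisms -/
  act : Aut → Pt → Pt
  /-- the inverse of an automorphism -/
  inv : Aut → Aut
  /-- the cubic fourfold is defined over the algebraic numbers -/
  IsAlg : Pt → Prop
  /-- the lattice of Hodge classes in `H^4(X, ℤ)`, with the square of the hyperplane class -/
  A : Pt → HLat

attribute [instance] Cubics.top

namespace Cubics

variable (D : Cubics)

/-- irreducible Zariski closed subsets -/
def Irr (Z : Set D.Pt) : Prop := IsClosed Z ∧ IsIrreducible Z

/-- the image of a set under an automorphism -/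
def conj (g : D.Aut) (Z : Set D.Pt) : Set D.Pt := {y | ∃ x, x ∈ Z ∧ D.act g x = y}

/-- the cubic fourfolds of discriminant `d` -/
def C (d : ℕ) : Set D.Pt := {x | Labelled (D.A x) d}

/-- countable unions of closed subsets -/
def CountableUnion (S : Set D.Pt) : Prop :=
  ∃ F : ℕ → Set D.Pt, (∀ n, IsClosed (F n)) ∧ ∀ x, x ∈ S ↔ ∃ n, x ∈ F n

/-- the set `S` is contained in a countable union of closed subsets which do not contain `Z` -/
def Small (Z S : Set D.Pt) : Prop :=
  ∃ F : ℕ → Set D.Pt, (∀ n, IsClosed (F n) ∧ ¬ Z ⊆ F n) ∧ ∀ x, x ∈ S → ∃ n, x ∈ F n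

/-- known properties of the Zariski topology and of the action of the automorphisms of the field of
complex numbers -/
structure Geometry : Prop where
  noetherian : ∀ Z : Set D.Pt, IsClosed Z → ∃ S : Set (Set D.Pt), S.Finite ∧
    (∀ T, T ∈ S → D.Irr T) ∧ ∀ x, x ∈ Z ↔ ∃ T, T ∈ S ∧ x ∈ T
  /-- the dimension of irreducible closed subsets -/
  dimension : ∃ (dim : Set D.Pt → ℕ) (N : ℕ), (∀ Z, dim Z ≤ N) ∧
    ∀ Z W, D.Irr Z → D.Irr W → Z ⊆ W → ¬ W ⊆ Z → dim Z < dim W
  /-- the complex numbers are not countable -/
  baire : ∀ (Z : Set D.Pt) (F : ℕ → Set D.Pt), D.Irr Z → (∀ n, IsClosed (F n)) →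
    (∀ x, x ∈ Z → ∃ n, x ∈ F n) → ∃ n, Z ⊆ F n
  inv_act : ∀ g x, D.act (D.inv g) (D.act g x) = x
  act_inv : ∀ g x, D.act g (D.act (D.inv g) x) = x
  act_irr : ∀ g Z, D.Irr Z → D.Irr (D.conj g Z)

/-- known properties of the lattices of Hodge classes -/
structure Hodge : Prop where
  /-- André's theorem on specialization: an irreducible closed subset with at most countably many
  conjugates is defined over the algebraic numbers, and has a point over the algebraic numbers such that
  all its Hodge classes extend to the generic point, so that they specialize to all points -/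
  andre : ∀ Z, D.Irr Z → {W | ∃ g, W = D.conj g Z}.Countable →
    ∃ x, x ∈ Z ∧ D.IsAlg x ∧ ∀ y, y ∈ Z → Embeds (D.A x) (D.A y)
  /-- Hassett's theorem -/
  irr : ∀ d, Admissible d → D.Irr (D.C d)
  /-- the very general cubic fourfold of discriminant `d` has a lattice of rank two -/
  rank : ∀ d, Admissible d → D.Small (D.C d) {x | x ∈ D.C d ∧ rk (D.A x) ≠ 2}

/-- The property `P` does not change under automorphisms of the field of complex numbers, and it holds
on a countable union of closed subsets. -/
structure Spreads (P : D.Pt → Prop) : Prop where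
  inv : ∀ g x, P x → P (D.act g x)
  union : D.CountableUnion {x | P x}

end Cubics

end Pool.Agent.L0h15.RC
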