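import Pool.Agent.L0h15.RC.Ax

/-!
# Specialization to algebraic points
-/

set_option autoImplicit false

namespace Pool.Agent.L0h15.RC

theorem IsPrimitive.zsmul {L M : HLat} {f : L → M} (hf : IsPrimitive f) (n : ℤ) (x : L) :
    f (n • x) = n • f x := by
  let g : L →+ M := AddMonoidHom.mk' f hf.add
  exact map_zsmul g n x

theorem labelled_of_embeds {L M : HLat} (h : Embeds L M) {d : ℕ} (hL : Labelled L d) :
    Labelled M d := by
  obtain ⟨f, hf⟩ := h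
  obtain ⟨v, hv, hd⟩ := hL
  refine ⟨f v, fun n w hn hw => ?_, ?_⟩
  · obtain ⟨a, b, hab⟩ := hw
    have h1 : f (a • L.h + b • v) = n • w := by
      rw [hf.add, hf.zsmul, hf.zsmul, hf.h]; exact hab.symm
    obtain ⟨x, hx⟩ := hf.sat n w hn ⟨_, h1⟩
    have h2 : f (n • x) = f (a • L.h + b • v) := by rw [hf.zsmul, hx, h1]
    obtain ⟨a', b', hab'⟩ := hv n x hn ⟨a, b, hf.inj _ _ h2⟩
    exact ⟨a', b', by rw [← hx, hab', hf.add, hf.zsmul, hf.zsmul, hf.h]⟩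
  · unfold disc at hd ⊢
    rw [← hf.h, hf.form, hf.form, hf.form]
    exact hd

theorem hasK3_of_embeds {L M : HLat} (h : Embeds L M) (hL : HasK3 L) : HasK3 M := by
  obtain ⟨d, hd, hl⟩ := hL
  exact ⟨d, hd, labelled_of_embeds h hl⟩

namespace Cubics

variable {D : Cubics}

theorem conj_subset (g : D.Aut) {Z W : Set D.Pt} (h : Z ⊆ W) : D.conj g Z ⊆ D.conj g W := by
  rintro y ⟨x, hx, rfl⟩
  exact ⟨x, h hx, rfl⟩

theorem conj_inv (hG : D.Geometry) (g : D.Aut) (Z : Set D.Pt) :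
    D.conj (D.inv g) (D.conj g Z) = Z := by
  ext y
  constructor
  · rintro ⟨_, ⟨x, hx, rfl⟩, rfl⟩
    rw [hG.inv_act]; exact hx
  · intro hy
    exact ⟨_, ⟨y, hy, rfl⟩, hG.inv_act g y⟩

theorem inv_conj (hG : D.Geometry) (g : D.Aut) (Z : Set D.Pt) :
    D.conj g (D.conj (D.inv g) Z) = Z := by
  ext y
  constructor
  · rintro ⟨_, ⟨x, hx, rfl⟩, rfl⟩
    rw [hG.act_inv]; exact hx
  · intro hy
    exact ⟨_, ⟨y, hy, rfl⟩, hG.act_inv g y⟩

theorem conj_sub_of {P : D.Pt → Prop} (hP : D.Spreads P) (g : D.Aut)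
    {Z : Set D.Pt} (h : Z ⊆ {x | P x}) : D.conj g Z ⊆ {x | P x} := by
  rintro y ⟨x, hx, rfl⟩
  exact hP.inv g x (h hx)

/-- a maximal irreducible closed subset on which `P` holds -/
theorem exists_maximal (hG : D.Geometry) {P : D.Pt → Prop} (hP : D.Spreads P) {x : D.Pt}
    (hx : P x) :
    ∃ Z, D.Irr Z ∧ x ∈ Z ∧ Z ⊆ {x | P x} ∧ ∀ W, D.Irr W → W ⊆ {x | P x} → Z ⊆ W → W = Z := by
  obtain ⟨dim, N, hN, hdim⟩ := hG.dimension
  obtain ⟨F, hF, hU⟩ := hP.union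
  let S : Set (Set D.Pt) := {Z | D.Irr Z ∧ x ∈ Z ∧ Z ⊆ {x | P x}}
  have hS : S.Nonempty := by
    obtain ⟨n, hn⟩ := (hU x).1 hx
    refine ⟨closure {x}, ⟨isClosed_closure, isIrreducible_singleton.closure⟩,
      subset_closure rfl, fun y hy => ?_⟩
    have h1 : closure {x} ⊆ F n := closure_minimal (Set.singleton_subset_iff.2 hn) (hF n)
    exact (hU y).2 ⟨n, h1 hy⟩
  have wf : WellFounded (fun Z W : Set D.Pt => N - dim Z < N - dim W) :=
    (measure fun Z : Set D.Pt => N - dim Z).wf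
  obtain ⟨Z, hZ, hmin⟩ := wf.has_min S hS
  refine ⟨Z, hZ.1, hZ.2.1, hZ.2.2, fun W hW hWP hZW => ?_⟩
  by_contra hne
  have h2 : ¬ W ⊆ Z := fun h => hne (Set.Subset.antisymm h hZW)
  have h3 := hdim Z W hZ.1 hW hZW h2
  have h4 := hN W
  exact hmin W ⟨hW, hZW hZ.2.1, hWP⟩ (by show N - dim W < N - dim Z; omega)

theorem countable_conj (hG : D.Geometry) {P : D.Pt → Prop} (hP : D.Spreads P) {Z : Set D.Pt}
    (hZ : D.Irr Z) (hZP : Z ⊆ {x | P x})
    (hmax : ∀ W, D.Irr W → W ⊆ {x | P x} → Z ⊆ W → W = Z) :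
    {W | ∃ g, W = D.conj g Z}.Countable := by
  obtain ⟨F, hF, hU⟩ := hP.union
  choose S hfin hirr hS using fun n => hG.noetherian (F n) (hF n)
  have hc : (⋃ n, S n).Countable := Set.countable_iUnion fun n => (hfin n).countable
  refine hc.mono ?_
  rintro W ⟨g, rfl⟩
  have hgI : D.Irr (D.conj g Z) := hG.act_irr g Z hZ
  have hgP : D.conj g Z ⊆ {x | P x} := conj_sub_of hP g hZP
  obtain ⟨n, hn⟩ := hG.baire (D.conj g Z) F hgI hF (fun x hx => (hU x).1 (hgP hx))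
  -- one of the components of `F n` contains the conjugate
  have hsub : D.conj g Z ⊆ ⋃₀ S n := by
    intro y hy
    obtain ⟨T, hT, hyT⟩ := (hS n y).1 (hn hy)
    exact ⟨T, hT, hyT⟩
  obtain ⟨T, hT, hTsub⟩ : ∃ T ∈ S n, D.conj g Z ⊆ T := by
    have := (isIrreducible_iff_sUnion_isClosed.1 hgI.2) (hfin n).toFinset
      (fun T hT => (hirr n T ((hfin n).mem_toFinset.1 hT)).1) (by simpa using hsub)
    obtain ⟨T, hT, h⟩ := this
    exact ⟨T, (hfin n).mem_toFinset.1 hT, h⟩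
  have hTP : T ⊆ {x | P x} := fun y hy => (hU y).2 ⟨n, (hS n y).2 ⟨T, hT, hy⟩⟩
  have hTI := hirr n T hT
  have h1 : Z ⊆ D.conj (D.inv g) T := by
    have := conj_subset (D.inv g) hTsub
    rwa [conj_inv hG] at this
  have h2 := hmax _ (hG.act_irr (D.inv g) T hTI) (conj_sub_of hP (D.inv g) hTP) h1
  have h3 : T = D.conj g Z := by rw [← h2, inv_conj hG]
  rw [← h3]
  exact Set.mem_iUnion.2 ⟨n, hT⟩

/-- every cubic fourfold with the property `P` is a specialization of one over the algebraic numbers,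
with respect to Hodge classes -/
theorem exists_alg (hG : D.Geometry) (hH : D.Hodge) {P : D.Pt → Prop} (hP : D.Spreads P)
    {x : D.Pt} (hx : P x) : ∃ y, D.IsAlg y ∧ P y ∧ Embeds (D.A y) (D.A x) := by
  obtain ⟨Z, hZ, hxZ, hZP, hmax⟩ := exists_maximal hG hP hx
  obtain ⟨y, hyZ, hy, hE⟩ := hH.andre Z hZ (countable_conj hG hP hZ hZP hmax)
  exact ⟨y, hy, hZP hyZ, hE x hxZ⟩

theorem none_of_alg (hG : D.Geometry) (hH : D.Hodge) {P : D.Pt → Prop} (hP : D.Spreads P)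
    {K : HLat → Prop} (hK : ∀ L M, Embeds L M → K M → K L)
    (h : ∀ x, D.IsAlg x → K (D.A x) → ¬ P x) (x : D.Pt) (hx : K (D.A x)) : ¬ P x := by
  intro hPx
  obtain ⟨y, hy, hPy, hE⟩ := exists_alg hG hH hP hPx
  exact h y hy (hK _ _ hE hx) hPy

theorem k3_of_alg (hG : D.Geometry) (hH : D.Hodge) {P : D.Pt → Prop} (hP : D.Spreads P)
    (h : ∀ x, D.IsAlg x → P x → HasK3 (D.A x)) (x : D.Pt) (hx : P x) : HasK3 (D.A x) := by
  obtain ⟨y, hy, hPy, hE⟩ := exists_alg hG hH hP hx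
  exact hasK3_of_embeds hE (h y hy hPy)

theorem all_of_not_small {P : D.Pt → Prop} (hP : D.Spreads P)
    {d : ℕ} (h : ¬ D.Small (D.C d) {x | x ∈ D.C d ∧ P x}) :
    ∀ x, x ∈ D.C d → P x := by
  obtain ⟨F, hF, hU⟩ := hP.union
  by_contra hne
  apply h
  refine ⟨F, fun n => ⟨hF n, fun hn => hne fun x hx => (hU x).2 ⟨n, hn hx⟩⟩, fun x hx => ?_⟩
  exact (hU x).1 hx.2

theorem not_small_self (hG : D.Geometry) (hH : D.Hodge) {d : ℕ} (hd : Admissible d)
    {S : Set D.Pt} (hS : ∀ x, x ∈ D.C d → x ∈ S) : ¬ D.Small (D.C d) S := by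
  rintro ⟨F, hF, hU⟩
  obtain ⟨n, hn⟩ := hG.baire (D.C d) F (hH.irr d hd) (fun n => (hF n).1)
    (fun x hx => hU x (hS x hx))
  exact (hF n).2 hn

theorem small_union {Z S T : Set D.Pt} (hS : D.Small Z S) (hT : D.Small Z T) :
    D.Small Z {x | x ∈ S ∨ x ∈ T} := by
  obtain ⟨F, hF, hU⟩ := hS
  obtain ⟨G, hG, hV⟩ := hT
  refine ⟨fun n => if n % 2 = 0 then F (n / 2) else G (n / 2), fun n => ?_, ?_⟩
  · by_cases hn : n % 2 = 0
    · simp only [hn, if_true]; exact hF _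
    · simp only [hn, if_false]; exact hG _
  · rintro x (hx | hx)
    · obtain ⟨n, hn⟩ := hU x hx
      exact ⟨2 * n, by simpa using hn⟩
    · obtain ⟨n, hn⟩ := hV x hx
      refine ⟨2 * n + 1, ?_⟩
      have h1 : (2 * n + 1) % 2 = 1 := by omega
      have h2 : (2 * n + 1) / 2 = n := by omega
      simpa [h1, h2] using hn

theorem rational_of_rank (hG : D.Geometry) (hH : D.Hodge) {P : D.Pt → Prop} (hP : D.Spreads P)
    (h : ∀ x, rk (D.A x) = 2 → HasK3 (D.A x) → P x) (x : D.Pt) (hx : HasK3 (D.A x)) : P x := by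
  obtain ⟨d, hd, hl⟩ := hx
  refine all_of_not_small hP (fun hs => ?_) x hl
  refine not_small_self hG hH hd (fun y hy => ?_) (small_union hs (hH.rank d hd))
  by_cases hr : rk (D.A y) = 2
  · exact Or.inl ⟨hy, h y hr ⟨d, hd, hy⟩⟩
  · exact Or.inr ⟨hy, hr⟩

theorem all_iff_not_small (hG : D.Geometry) (hH : D.Hodge) {P : D.Pt → Prop} (hP : D.Spreads P) :
    (∀ x, HasK3 (D.A x) → P x) ↔
      ∀ d, Admissible d → ¬ D.Small (D.C d) {x | x ∈ D.C d ∧ P x} := by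
  constructor
  · intro h d hd
    exact not_small_self hG hH hd fun x hx => ⟨hx, h x ⟨d, hd, hx⟩⟩
  · rintro h x ⟨d, hd, hl⟩
    exact all_of_not_small hP (h d hd) x hl

end Cubics

end Pool.Agent.L0h15.RC
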